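import Mathlib
import Pool.Agent.R584.King5

/-!
# MP_abcfaf_gt, Q1 and Q2: locally compact and locally pseudocompact king spaces are compact
-/

open Set Filter Topology

namespace Pool.Agent.Results.MP_abcfaf_gt.LocallyPseudocompactKing

universe u

/-- A weak selection on `X`: for each two-element set `{x, y}` a point `sel x y = sel y x` of
`{x, y}`.  (The value `sel x x` is forced to be `x` and carries no information.) -/
structure WeakSelection (X : Type u) where
  sel : X → X → X
  symm : ∀ x y, sel x y = sel y x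
  mem : ∀ x y, sel x y = x ∨ sel x y = y

variable {X : Type u}

/-- Continuity of a weak selection: for distinct `a, b` and open `W ∋ sel a b` there are open
`U ∋ a`, `V ∋ b` with `sel a' b' ∈ W` for all distinct `a' ∈ U`, `b' ∈ V`. -/
def WeakSelection.IsContinuous [TopologicalSpace X] (s : WeakSelection X) : Prop :=
  ∀ a b : X, a ≠ b → ∀ W : Set X, IsOpen W → s.sel a b ∈ W →
    ∃ U V : Set X, IsOpen U ∧ IsOpen V ∧ a ∈ U ∧ b ∈ V ∧
      ∀ a' ∈ U, ∀ b' ∈ V, a' ≠ b' → s.sel a' b' ∈ W

/-- `a →_φ b`: either `a = b`, or `a ≠ b` and `φ({a, b}) = b`. -/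
def WeakSelection.Arrow (s : WeakSelection X) (a b : X) : Prop :=
  a = b ∨ (a ≠ b ∧ s.sel a b = b)

/-- `z` is a `φ`-king: every `x` is reached from `z` in at most two steps. -/
def WeakSelection.IsKing (s : WeakSelection X) (z : X) : Prop :=
  ∀ x, ∃ y, s.Arrow z y ∧ s.Arrow y x

/-- A king space: every continuous weak selection has a king. -/
def KingSpace (X : Type u) [TopologicalSpace X] : Prop :=
  ∀ s : WeakSelection X, s.IsContinuous → ∃ z, s.IsKing z

/-- A subset is pseudocompact if every continuous real-valued function on it is bounded. -/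
def PseudocompactSet [TopologicalSpace X] (S : Set X) : Prop :=
  ∀ f : S → ℝ, Continuous f → ∃ C : ℝ, ∀ x, |f x| ≤ C

/-- Every point has an open neighbourhood with pseudocompact closure. -/
def LocallyPseudocompact (X : Type u) [TopologicalSpace X] : Prop :=
  ∀ x : X, ∃ U : Set X, IsOpen U ∧ x ∈ U ∧ PseudocompactSet (closure U)

open Pool.Agent.R584.King

/-- The tournament of a continuous weak selection. -/
def toTour [TopologicalSpace X] [T2Space X] (s : WeakSelection X) (hs : s.IsContinuous) :
    Tour X where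
  lt x y := x ≠ y ∧ s.sel x y = x
  irrefl x h := h.1 rfl
  asymm x y h h' := h.1 (by rw [← h.2, s.symm, h'.2])
  total x y hxy := by
    rcases s.mem x y with h | h
    · exact Or.inl ⟨hxy, h⟩
    · exact Or.inr ⟨hxy.symm, by rw [s.symm]; exact h⟩
  opn x y h := by
    obtain ⟨W1, W2, hW1, hW2, hx, hy, hdisj⟩ := t2_separation h.1
    obtain ⟨U, V, hU, hV, hxU, hyV, hUV⟩ := hs x y h.1 W1 hW1 (by rw [h.2]; exact hx)
    refine ⟨U ∩ W1, V ∩ W2, hU.inter hW1, hV.inter hW2, ⟨hxU, hx⟩, ⟨hyV, hy⟩, ?_⟩
    rintro a ⟨ha, ha'⟩ b ⟨hb, hb'⟩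
    have hab : a ≠ b := by
      rintro rfl
      exact disjoint_left.1 hdisj ha' hb'
    refine ⟨hab, ?_⟩
    rcases s.mem a b with h1 | h1
    · exact h1
    · exfalso
      have h2 := hUV a ha b hb hab
      rw [h1] at h2
      exact disjoint_left.1 hdisj h2 hb'

open Classical in
/-- The weak selection of a tournament. -/
noncomputable def ofTour [TopologicalSpace X] (T : Tour X) : WeakSelection X where
  sel x y := if T.lt x y then x else y
  symm x y := by
    by_cases h1 : T.lt x y
    · rw [if_pos h1, if_neg (T.asymm _ _ h1)]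
    · by_cases h2 : T.lt y x
      · rw [if_neg h1, if_pos h2]
      · rw [if_neg h1, if_neg h2]
        by_contra hne
        rcases T.total y x hne with h | h
        · exact h2 h
        · exact h1 h
  mem x y := by
    by_cases h1 : T.lt x y
    · exact Or.inl (if_pos h1)
    · exact Or.inr (if_neg h1)

theorem ofTour_sel [TopologicalSpace X] (T : Tour X) {x y : X} (h : T.lt x y) :
    (ofTour T).sel x y = x := if_pos h

theorem ofTour_sel' [TopologicalSpace X] (T : Tour X) {x y : X} (h : T.lt y x) :
    (ofTour T).sel x y = y := if_neg (T.asymm _ _ h)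

theorem ofTour_continuous [TopologicalSpace X] (T : Tour X) : (ofTour T).IsContinuous := by
  intro x y hxy W hW hmem
  rcases T.total x y hxy with h | h
  · rw [ofTour_sel T h] at hmem
    obtain ⟨U, V, hU, hV, hx, hy, hlt⟩ := T.opn x y h
    refine ⟨U ∩ W, V, hU.inter hW, hV, ⟨hx, hmem⟩, hy, ?_⟩
    rintro a ⟨ha, ha'⟩ b hb _
    rw [ofTour_sel T (hlt a ha b hb)]
    exact ha'
  · rw [ofTour_sel' T h] at hmem
    obtain ⟨U, V, hU, hV, hy, hx, hlt⟩ := T.opn y x h
    refine ⟨V, U ∩ W, hV, hU.inter hW, hx, ⟨hy, hmem⟩, ?_⟩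
    rintro a ha b ⟨hb, hb'⟩ _
    rw [ofTour_sel' T (hlt b hb a ha)]
    exact hb'

theorem ofTour_arrow [TopologicalSpace X] (T : Tour X) {a b : X} (h : (ofTour T).Arrow a b) :
    T.le b a := by
  rcases h with rfl | ⟨hne, h⟩
  · exact Or.inl rfl
  · rcases T.total a b hne with h1 | h1
    · rw [ofTour_sel T h1] at h
      exact absurd h hne
    · exact Or.inr h1

theorem kingSp_of_kingSpace [TopologicalSpace X] (hk : KingSpace X) : KingSp X := by
  intro T
  obtain ⟨z, hz⟩ := hk (ofTour T) (ofTour_continuous T)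
  refine ⟨z, fun x => ?_⟩
  obtain ⟨y, h1, h2⟩ := hz x
  exact ⟨y, ofTour_arrow T h1, ofTour_arrow T h2⟩

/-- An open set with pseudocompact closure is relatively feebly compact. -/
theorem rfc_of_pseudocompact [TopologicalSpace X] [CompletelyRegularSpace X] {U : Set X}
    (hU : PseudocompactSet (closure U)) : RFC U := by
  classical
  intro O hO hOU hinf
  by_contra hno
  push Not at hno
  have hch : ∀ n, ∃ g : X → ℝ, Continuous g ∧ (∀ x, 0 ≤ g x) ∧ (∀ x, x ∉ O n → g x = 0) ∧
      ((O n).Nonempty → ∃ x ∈ O n, g x = 1) := by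
    intro n
    by_cases hne : (O n).Nonempty
    · obtain ⟨x, hx⟩ := hne
      obtain ⟨f0, hf0, hf0x, hf01⟩ := CompletelyRegularSpace.completely_regular x (O n)ᶜ
        (hO n).isClosed_compl (fun h => h hx)
      refine ⟨fun z => 1 - (f0 z : ℝ), continuous_const.sub (continuous_subtype_val.comp hf0),
        fun z => sub_nonneg.2 (f0 z).2.2, ?_, fun _ => ⟨x, hx, ?_⟩⟩
      · intro z hz
        have : f0 z = 1 := hf01 hz
        show 1 - (f0 z : ℝ) = 0
        rw [this]
        simp
      · show 1 - (f0 x : ℝ) = 1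
        rw [hf0x]
        simp
    · exact ⟨fun _ => 0, continuous_const, fun _ => le_rfl, fun _ _ => rfl,
        fun h => absurd h hne⟩
  choose g hg hg0 hgO hg1 using hch
  let F : X → ℝ := fun x => ∑ᶠ n : ℕ, (n : ℝ) * g n x
  have hlf : LocallyFinite fun n : ℕ => Function.support fun x => (n : ℝ) * g n x := by
    intro x
    obtain ⟨W, hW, hxW, hfin⟩ := hno x
    refine ⟨W, hW.mem_nhds hxW, hfin.subset ?_⟩
    rintro n ⟨z, hz, hzW⟩
    refine ⟨z, ?_, hzW⟩
    by_contra hzO
    exact hz (by show (n : ℝ) * g n z = 0; rw [hgO n z hzO, mul_zero])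
  have hF : Continuous F := continuous_finsum (fun n => continuous_const.mul (hg n)) hlf
  obtain ⟨C, hC⟩ := hU (fun x => F x) (hF.comp continuous_subtype_val)
  obtain ⟨n, hn, hnC⟩ := hinf.exists_gt ⌈C⌉₊
  obtain ⟨x, hx, hgx⟩ := hg1 n hn
  have h1 := hC ⟨x, subset_closure (hOU n hx)⟩
  have h2 : (n : ℝ) * g n x ≤ F x := by
    refine single_le_finsum n ?_ (fun m => mul_nonneg (Nat.cast_nonneg m) (hg0 m x))
    obtain ⟨W, hW, hxW, hfin⟩ := hno x
    refine hfin.subset ?_
    intro m hm
    refine ⟨x, ?_, hxW⟩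
    by_contra hzO
    exact hm (by show (m : ℝ) * g m x = 0; rw [hgO m x hzO, mul_zero])
  rw [hgx, mul_one] at h2
  have h3 : C < n := (Nat.le_ceil C).trans_lt (by exact_mod_cast hnC)
  have h4 : F x ≤ C := (le_abs_self _).trans h1
  linarith

/-- Every locally pseudocompact Tychonoff king space with a continuous weak selection is
compact. -/
theorem compact_of_locallyPseudocompact [TopologicalSpace X] [T35Space X]
    (hX : LocallyPseudocompact X) (hk : KingSpace X)
    (hs : ∃ s : WeakSelection X, s.IsContinuous) : CompactSpace X := by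
  obtain ⟨s, hs⟩ := hs
  refine compact_of_king (kingSp_of_kingSpace hk) ?_ (toTour s hs)
  intro x
  obtain ⟨U, hU, hxU, hUc⟩ := hX x
  exact ⟨U, hU, hxU, rfc_of_pseudocompact hUc⟩

/-- **Q1 and Q2.**  Every locally compact Hausdorff king space admitting a continuous weak
selection is compact, and every locally pseudocompact Tychonoff king space admitting a continuous
weak selection is compact. -/
theorem result :
    (∀ (X : Type u) [TopologicalSpace X] [T2Space X] [LocallyCompactSpace X], KingSpace X →
      (∃ s : WeakSelection X, s.IsContinuous) → CompactSpace X) ∧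
    (∀ (X : Type u) [TopologicalSpace X] [T35Space X], LocallyPseudocompact X → KingSpace X →
      (∃ s : WeakSelection X, s.IsContinuous) → CompactSpace X) := by
  refine ⟨?_, fun X _ _ hX hk hs => compact_of_locallyPseudocompact hX hk hs⟩
  intro X _ _ _ hk hs
  have : T35Space X := (OnePoint.isOpenEmbedding_coe (X := X)).isEmbedding.t35Space
  refine compact_of_locallyPseudocompact ?_ hk hs
  intro x
  obtain ⟨K, hK, hxK⟩ := exists_compact_mem_nhds x
  refine ⟨interior K, isOpen_interior, mem_interior_iff_mem_nhds.2 hxK, ?_⟩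
  intro f hf
  have hcl : IsCompact (closure (interior K)) :=
    hK.of_isClosed_subset isClosed_closure
      (closure_minimal interior_subset hK.isClosed)
  have : CompactSpace (closure (interior K)) := isCompact_iff_compactSpace.1 hcl
  obtain ⟨C, hC⟩ := (isCompact_range hf).isBounded.exists_norm_le
  exact ⟨C, fun x => hC (f x) ⟨x, rfl⟩⟩

end Pool.Agent.Results.MP_abcfaf_gt.LocallyPseudocompactKing
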